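import Pool.Agent.Helper41.RS.Fin

/-!
# MP_418077_nt: the exact order for pairs of roots one of which has bounded degree

`Helper41.RS.height`, `Sepa`, `SepaMon`, `pairDist`, `minDist` are defined in
`Helper41/RS/Defs.lean`, the exceptional pairs `Exc` in `Helper41/RS/Main.lean`:
`Exc k H` is `(k = 1 ∧ H ≤ 2) ∨ (k = 2 ∧ H = 1)`.

* Lower bounds for `-log`: `A (X ^ N - A S)` where `A ^ 2 S` has height at most `H`, with
  `A = a X - 1` (`a = ⌊√H⌋`, `H ≥ 4`; `a = 2`, `H = 3`), `A = X ^ 2 + X - 1` (`H = 2`),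
  `A = X ^ 3 + X ^ 2 - 1` (`H = 1`), and their reversals.
* Upper bounds: the resultant of the derivative with the irreducible factor of the root of bounded
  degree, whose Mahler measure is at most `H √(e (k + 1))`; in the exceptional cases the only factors which are not cyclotomic are
  `2 X ± 1`, `X ± 2` and `X ^ 2 ± X - 1`, and there the derivative is bounded from below by
  considering the coefficients.
-/

set_option autoImplicit false

open Polynomial Filter Topology
open Pool.Agent.Helper41.RS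

namespace Pool.Agent.Results.MP_418077_nt.BoundedDegreeOrder

theorem result (k H : ℕ) (hk : 1 ≤ k) (hH : 1 ≤ H) :
    (∀ n : ℕ, 1 ≤ n → ∀ S : Set ℤ[X], S ⊆ Sepa n H → (pairDist k S).Nonempty →
      IsLeast (pairDist k S) (minDist k S) ∧ 0 < minDist k S ∧
      -Real.log (minDist k S) ≤ n * (Real.log H + (1 + Real.log (k + 1)) / 2) +
        (k * Real.log (H * (n : ℝ) ^ 2) + Real.log n + 1)) ∧
    (¬ Exc k H → ∀ᶠ n : ℕ in atTop, ∀ S : Set ℤ[X], SepaMon n H ⊆ S → S ⊆ Sepa n H →
      (pairDist k S).Nonempty ∧ 3 / 10 * n * Real.log (H + 1) ≤ -Real.log (minDist k S)) ∧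
    (Exc k H → ∀ᶠ n : ℕ in atTop, ∀ S : Set ℤ[X], SepaMon n H ⊆ S → S ⊆ Sepa n H →
      (pairDist k S).Nonempty ∧ Real.log n - 2 ≤ -Real.log (minDist k S) ∧
      -Real.log (minDist k S) ≤ 6 * Real.log n) :=
  ⟨fun _ hn _ hS hne => order_upper hH hn hS hne, order_main hk hH, order_exc hk hH⟩

end Pool.Agent.Results.MP_418077_nt.BoundedDegreeOrder
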