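import Pool.Agent.Helper10.Sep.Gap
import Pool.Agent.Helper10.Sep.Rel
import Pool.Agent.Helper10.Sep.Roots

/-!
# MP_418077_nt: for every height the minimal root separation decays exponentially

For all `H ≥ 1` (in particular for `H = 1`) and all large `n` there is a monic irreducible
polynomial of degree `n` with coefficients in `{-1, 0, 1}` with two real roots at distance at most
`(7 / 8) ^ n`, so `-log` of each of the four minima is at least `n * log (8 / 7)`.
-/

set_option autoImplicit false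

open Polynomial

namespace Pool.Agent.Results.MP_418077_nt.LinearLowerBound

/-- The height, the largest absolute value of a coefficient. -/
def height (P : ℤ[X]) : ℕ := P.support.sup fun i => (P.coeff i).natAbs

/-- The separation, the least distance of two different complex roots. -/
noncomputable def sep (P : ℤ[X]) : ℝ :=
  sInf {r : ℝ | ∃ a b : ℂ, aeval a P = 0 ∧ aeval b P = 0 ∧ a ≠ b ∧ r = ‖a - b‖}

/-- The polynomials of degree `n` and height at most `H` with pairwise different complex roots. -/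
def Sepa (n H : ℕ) : Set ℤ[X] := {P | P.natDegree = n ∧ height P ≤ H ∧ (P.aroots ℂ).Nodup}

/-- The irreducible ones. -/
def SepaIrr (n H : ℕ) : Set ℤ[X] := {P | P ∈ Sepa n H ∧ Irreducible P}

/-- The monic ones. -/
def SepaMon (n H : ℕ) : Set ℤ[X] := {P | P ∈ Sepa n H ∧ P.Monic}

/-- The monic and irreducible ones. -/
def SepaMonIrr (n H : ℕ) : Set ℤ[X] := {P | P ∈ Sepa n H ∧ P.Monic ∧ Irreducible P}

/-- The least separation of the polynomials in the set `S`. -/
noncomputable def minSep (S : Set ℤ[X]) : ℝ := sInf (sep '' S)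

private lemma natAbs_coeff_le (P : ℤ[X]) (i : ℕ) : (P.coeff i).natAbs ≤ height P := by
  by_cases h : i ∈ P.support
  · exact Finset.le_sup (f := fun i => (P.coeff i).natAbs) h
  · rw [notMem_support_iff.1 h]
    simp

private lemma finite_Sepa (n H : ℕ) : (Sepa n H).Finite := by
  classical
  have h1 : Set.InjOn (fun (P : ℤ[X]) (i : Fin (n + 1)) => P.coeff i) (Sepa n H) := by
    intro P hP Q hQ h
    ext i
    by_cases hi : i < n + 1
    · exact congrFun h ⟨i, hi⟩
    · rw [coeff_eq_zero_of_natDegree_lt (by rw [hP.1]; omega),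
        coeff_eq_zero_of_natDegree_lt (by rw [hQ.1]; omega)]
  refine Set.Finite.of_finite_image (f := fun (P : ℤ[X]) (i : Fin (n + 1)) => P.coeff i) ?_ h1
  refine Set.Finite.subset (Set.Finite.pi' (t := fun _ : Fin (n + 1) => Set.Icc (-(H : ℤ)) H)
    (fun _ => Set.finite_Icc _ _)) ?_
  rintro _ ⟨P, hP, rfl⟩ i
  have h2 := (natAbs_coeff_le P i).trans hP.2.1
  have h3 : -(H : ℤ) ≤ P.coeff i ∧ P.coeff i ≤ H := by omega
  exact h3

private lemma dist_finite {P : ℤ[X]} (hP : P ≠ 0) :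
    {r : ℝ | ∃ a b : ℂ, aeval a P = 0 ∧ aeval b P = 0 ∧ a ≠ b ∧ r = ‖a - b‖}.Finite := by
  have h1 : ((P.rootSet ℂ) ×ˢ (P.rootSet ℂ)).Finite :=
    (rootSet_finite P ℂ).prod (rootSet_finite P ℂ)
  refine (h1.image fun x : ℂ × ℂ => ‖x.1 - x.2‖).subset ?_
  rintro r ⟨a, b, ha, hb, -, rfl⟩
  exact ⟨(a, b), ⟨(mem_rootSet_of_ne hP).2 ha, (mem_rootSet_of_ne hP).2 hb⟩, rfl⟩

private lemma sep_pos {n H : ℕ} (hn : 2 ≤ n) {P : ℤ[X]} (hP : P ∈ Sepa n H) : 0 < sep P := by
  classical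
  have hP0 : P ≠ 0 := by
    rintro rfl
    have := hP.1
    rw [natDegree_zero] at this
    omega
  have hcard : (P.aroots ℂ).toFinset.card = n := by
    rw [Multiset.toFinset_card_of_nodup hP.2.2]
    have h1 : (P.aroots ℂ).card = (P.map (algebraMap ℤ ℂ)).natDegree :=
      splits_iff_card_roots.1 (IsAlgClosed.splits _)
    rw [h1, natDegree_map_eq_of_injective (RingHom.injective_int (algebraMap ℤ ℂ)), hP.1]
  obtain ⟨a, ha, b, hb, hab⟩ := Finset.one_lt_card.1 (by omega : 1 < (P.aroots ℂ).toFinset.card)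
  rw [Multiset.mem_toFinset, mem_aroots] at ha hb
  have hne : {r : ℝ | ∃ a b : ℂ, aeval a P = 0 ∧ aeval b P = 0 ∧ a ≠ b ∧ r = ‖a - b‖}.Nonempty :=
    ⟨_, a, b, ha.2, hb.2, hab, rfl⟩
  obtain ⟨a', b', -, -, hab', h⟩ := hne.csInf_mem (dist_finite hP0)
  rw [sep, h]
  exact norm_pos_iff.2 (sub_ne_zero.2 hab')

open Pool.Agent.Helper10.Sep in
private lemma exists_poly : ∃ n₀ : ℕ, 2 ≤ n₀ ∧ ∀ n, n₀ ≤ n → ∀ H, 1 ≤ H →
    ∃ P ∈ SepaMonIrr n H, sep P ≤ (7 / 8) ^ n := by
  have hF0 : F.coeff 0 ≠ 0 := by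
    rw [coeff_F]
    decide
  obtain ⟨n₁, h1⟩ := gap F hF0 3 (by norm_num) (by rw [eval_F_one]; norm_num)
    (by rw [eval_F_one]; norm_num)
  obtain ⟨n₂, h2⟩ := relPrime F hF0 norm_F_ne_one
  obtain ⟨n₃, h3⟩ := two_roots
  refine ⟨max (max n₁ n₂) (max n₃ 24), by omega, fun n hn H hH => ?_⟩
  have hn1 : n₁ ≤ n := by omega
  have hn2 : n₂ ≤ n := by omega
  have hn3 : n₃ ≤ n := by omega
  have hn4 : 24 ≤ n := by omega
  have hFn : F.natDegree < n := natDegree_F_lt.trans_le hn4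
  set P : ℤ[X] := X ^ n - F with hP
  have hdeg : P.natDegree = n := by
    rw [hP, natDegree_sub_eq_left_of_natDegree_lt] <;> rw [natDegree_X_pow]
    exact hFn
  have hmonic : P.Monic := by
    rw [Monic, leadingCoeff, hdeg, hP, coeff_sub, coeff_X_pow, if_pos rfl,
      coeff_eq_zero_of_natDegree_lt hFn, sub_zero]
  have hP0 : P ≠ 0 := hmonic.ne_zero
  have hirr : Irreducible P := by
    refine irreducible_of_mirror ?_ (h1 n hn1) (h2 n hn2)
    intro hu
    have := natDegree_eq_zero_of_isUnit hu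
    omega
  have hht : height P ≤ 1 := by
    refine Finset.sup_le fun i _ => ?_
    have h4 := abs_coeff_F i
    rcases eq_or_ne i n with rfl | hi
    · have h5 : P.coeff i = 1 := by
        rw [hP, coeff_sub, coeff_X_pow, if_pos rfl, coeff_eq_zero_of_natDegree_lt hFn, sub_zero]
      rw [h5]
      norm_num
    · have h5 : P.coeff i = -F.coeff i := by
        rw [hP, coeff_sub, coeff_X_pow, if_neg hi, zero_sub]
      rw [h5, Int.natAbs_neg]
      rw [Int.abs_eq_natAbs] at h4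
      omega
  have hnodup : (P.aroots ℂ).Nodup := by
    have h4 : Irreducible (P.map (algebraMap ℤ ℚ)) :=
      (hmonic.irreducible_iff_irreducible_map_fraction_map (K := ℚ)).1 hirr
    have h5 : (P.map (algebraMap ℤ ℚ)).Separable := h4.separable
    have h6 : ((P.map (algebraMap ℤ ℚ)).map (algebraMap ℚ ℂ)).Separable := h5.map
    rw [map_map] at h6
    have h7 : (algebraMap ℚ ℂ).comp (algebraMap ℤ ℚ) = algebraMap ℤ ℂ := RingHom.ext_int _ _
    rw [h7] at h6
    exact nodup_roots h6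
  refine ⟨P, ⟨⟨hdeg, hht.trans hH, hnodup⟩, hmonic, hirr⟩, ?_⟩
  obtain ⟨r₁, r₂, hlt, hr1, hr2, hle⟩ := h3 n hn3
  have hr : ∀ r : ℝ, aeval r P = 0 → aeval (r : ℂ) P = 0 := by
    intro r h
    have h4 : aeval (algebraMap ℝ ℂ r) P = algebraMap ℝ ℂ (aeval r P) :=
      aeval_algebraMap_apply ℂ r P
    rw [h, map_zero] at h4
    exact h4
  refine (csInf_le ?_ ?_).trans hle
  · exact (dist_finite hP0).bddBelow
  · refine ⟨(r₂ : ℂ), (r₁ : ℂ), hr _ hr2, hr _ hr1, ?_, ?_⟩
    · intro h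
      exact hlt.ne' (Complex.ofReal_injective h)
    · rw [← Complex.ofReal_sub, Complex.norm_real, Real.norm_of_nonneg (sub_nonneg.2 hlt.le)]

/-- For all `H ≥ 1` and all large `n` each of the four minimal separations `s` (all separable
polynomials, the irreducible, the monic, the monic irreducible ones, of degree `n` and height at
most `H`) is attained, positive and satisfies `-log s ≥ n * log (8 / 7)`. -/
theorem result : ∃ n₀ : ℕ, ∀ n, n₀ ≤ n → ∀ H, 1 ≤ H →
    ∀ S ∈ ({Sepa n H, SepaIrr n H, SepaMon n H, SepaMonIrr n H} : Set (Set ℤ[X])),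
      IsLeast (sep '' S) (minSep S) ∧ 0 < minSep S ∧
        (n : ℝ) * Real.log (8 / 7) ≤ -Real.log (minSep S) := by
  obtain ⟨n₀, hn₀, h0⟩ := exists_poly
  refine ⟨n₀, fun n hn H hH S hS => ?_⟩
  obtain ⟨P, hP, hle⟩ := h0 n hn H hH
  have hsub : S ⊆ Sepa n H ∧ P ∈ S := by
    rcases hS with rfl | rfl | rfl | rfl
    · exact ⟨subset_rfl, hP.1⟩
    · exact ⟨fun Q hQ => hQ.1, hP.1, hP.2.2⟩
    · exact ⟨fun Q hQ => hQ.1, hP.1, hP.2.1⟩
    · exact ⟨fun Q hQ => hQ.1, hP⟩
  obtain ⟨hS1, hPS⟩ := hsub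
  have hfin : (sep '' S).Finite := ((finite_Sepa n H).subset hS1).image _
  have hne : (sep '' S).Nonempty := ⟨_, P, hPS, rfl⟩
  have hmem : minSep S ∈ sep '' S := hne.csInf_mem hfin
  have hpos : 0 < minSep S := by
    obtain ⟨Q, hQ, hQe⟩ := hmem
    rw [← hQe]
    exact sep_pos (by omega) (hS1 hQ)
  refine ⟨⟨hmem, fun r hr => csInf_le hfin.bddBelow hr⟩, hpos, ?_⟩
  have h1 : minSep S ≤ (7 / 8) ^ n := (csInf_le hfin.bddBelow ⟨P, hPS, rfl⟩).trans hle
  have h2 : Real.log (minSep S) ≤ Real.log ((7 / 8) ^ n) := Real.log_le_log hpos h1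
  have h3 : Real.log ((7 / 8 : ℝ) ^ n) = -((n : ℝ) * Real.log (8 / 7)) := by
    rw [Real.log_pow, ← mul_neg, ← Real.log_inv]
    norm_num
  rw [h3] at h2
  linarith

end Pool.Agent.Results.MP_418077_nt.LinearLowerBound
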