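import Pool.Agent.Helper41.DZ.Cpx
import Pool.Agent.Helper41.DZ.Rnd

/-!
# MP_418077_nt: where the close pairs of roots are

`Sepa n H` is the set of the integer polynomials of degree `n` and height at most `H` with
pairwise different complex roots, `SepaMon n H` the subset of the monic ones, so that `L(n,H)` and
`L_0(n,H)` are the least distances of two roots of one polynomial in these sets.

`Close T` is the set of all complex `z` such that for every `δ > 0` some polynomial in some `T n`,
`n ≥ 1`, has two roots `a ≠ b` with `|a - z| < δ` and `|a - b| < δ`; for `z` outside `Close T` the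
distances near `z` are therefore bounded below by a positive constant, for all degrees.
`ExpAt T z` says that there is an `l < 1` such that for all large `n` some polynomial in `T n` has
two different roots at distance at most `l ^ n` from `z`.
`Dbl C H` is the set of the multiple zeros in the open unit disc of power series with integer
coefficients of absolute value at most `H` and constant term in `C`.

`Localised T C H` says: a complex `z` is in `Close T` if and only if it is in `Dbl {0}ᶜ H`, or
`|z| = 1`, or `1 / z` is in `Dbl C H`; and then `ExpAt T z` holds, unless `|z| = 1`.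

* Away from double zeros the distances are bounded below by a compactness argument.
* A double zero `z` of a power series is approximated by separable monic polynomials of the same
  height and every large degree: the first coefficients are prescribed, the other ones are chosen
  such that the polynomial is squarefree modulo a prime `p` with `H < p ≤ 2 H`.
* The set `Close T` contains an annulus by the pigeonhole principle, and in the monic case by
  rounding the coefficients of a multiple of a polynomial with a given double zero.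
* Its complement contains a disc around `0` by estimates of the coefficients of the quotient by
  the linear factors of two or (for non-real `z`) four small roots.
-/

set_option autoImplicit false

namespace Pool.Agent.Results.MP_418077_nt.Localisation

open Pool.Agent.Helper41.RS Pool.Agent.Helper41.DZ

theorem result (H : ℕ) (hH : 1 ≤ H) :
    -- the set of the points with close pairs of roots, exponential closeness
    Localised (fun n => Sepa n H) {0}ᶜ H ∧
    Localised (fun n => SepaMon n H) {1} H ∧
    -- the position of this set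
    (∀ z ∈ Close fun n => Sepa n H, 1 / (1 + √H) ≤ ‖z‖ ∧ ‖z‖ ≤ 1 + √H) ∧
    (∀ z ∈ Close fun n => Sepa n H, z.im ≠ 0 → 1 / (1 + √√H) ≤ ‖z‖ ∧ ‖z‖ ≤ 1 + √√H) ∧
    (H = 1 → ∀ z ∈ Close fun n => Sepa n H, 0.649 < ‖z‖ ∧ ‖z‖ * 0.649 < 1) ∧
    -- annuli in it
    (∀ z : ℂ,
      (‖z‖ ≤ 1 → 1 < ((H : ℝ) + 1) * ‖z‖ ^ 4 → z ∈ Close fun n => SepaMon n H) ∧
      (1 ≤ ‖z‖ → ‖z‖ ^ 4 < (H : ℝ) + 1 → z ∈ Close fun n => Sepa n H) ∧
      (1 ≤ ‖z‖ → ‖z‖ ^ 4 < 2 ∨ (1 + ‖z‖) ^ 4 ≤ (H : ℝ) + 1 → z ∈ Close fun n => SepaMon n H)) ∧
    -- real points in it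
    (∀ x : ℝ,
      (|x| ≤ 1 → 1 < ((H : ℝ) + 1) * x ^ 2 → (x : ℂ) ∈ Close fun n => SepaMon n H) ∧
      (1 ≤ |x| → x ^ 2 < (H : ℝ) + 1 → (x : ℂ) ∈ Close fun n => Sepa n H) ∧
      (1 ≤ |x| → x ^ 2 < 2 ∨ (1 + |x|) ^ 2 ≤ (H : ℝ) + 1 →
        (x : ℂ) ∈ Close fun n => SepaMon n H)) := by
  refine ⟨localised_all hH, localised_monic hH, fun z hz => position hH hz,
    fun z hz hi => position_nonreal hH hz hi, ?_, fun z => ?_, fun x => ?_⟩
  · rintro rfl z hz
    exact position_one hz
  · obtain ⟨h1, h2, h3⟩ := annuli hH z
    refine ⟨h1, h2, fun h4 h5 => ?_⟩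
    rcases h5 with h5 | h5
    · exact h3 h4 h5
    · exact (monic_annuli hH).1 z h4 h5
  · obtain ⟨h1, h2, h3⟩ := reals hH x
    have e1 : |x| ≤ 1 → x ^ 2 ≤ 1 := (sq_le_one_iff_abs_le_one x).2
    have e2 : 1 ≤ |x| → 1 ≤ x ^ 2 := (one_le_sq_iff_one_le_abs x).2
    refine ⟨fun h4 => h1 (e1 h4), fun h4 => h2 (e2 h4), fun h4 h5 => ?_⟩
    rcases h5 with h5 | h5
    · exact h3 (e2 h4) h5
    · exact (monic_annuli hH).2 x h4 h5

end Pool.Agent.Results.MP_418077_nt.Localisation
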