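import Pool.Agent.Helper41.RS.Qui2

/-!
# MP_418077_nt: the roots next to a Pisot or Salem number

Definitions: `height`, `Sepa`, `SepaMon` in `Helper41/RS/Defs.lean`; `rootDist`, `minRootDist`,
`sepDist`, `minSep` in `Helper41/RS/Pis.lean`; `PisotSalem` in `Helper41/RS/Qui.lean`.

* Lower bound for `-log`: `A (X ^ N - A S)`, `A` the reversed minimal polynomial, `A ^ 2 S` of
  height at most `H`, has the roots `1 / θ` and `1 / θ + O(θ ^ (-N))`; take the reversed polynomial.
  For the quintic Pisot number there is a cofactor `S` of degree 14 with `A ^ 2 S` of height one.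
* Upper bound: the resultant of the derivative with the minimal polynomial of `θ`, whose Mahler
  measure is `θ`.
-/

set_option autoImplicit false

open Polynomial Filter Topology
open Pool.Agent.Helper41.RS

namespace Pool.Agent.Results.MP_418077_nt.PisotPairs

theorem result :
    (∀ (θ : ℝ) (f : ℤ[X]), PisotSalem θ f →
      ∃ C : ℝ, ∀ᶠ n : ℕ in atTop, ∀ H : ℕ, height f ≤ H → height (f ^ 2) ≤ H →
        ∀ T : Set ℤ[X], SepaMon n H ⊆ T → T ⊆ Sepa n H →
        IsLeast (rootDist θ T) (minRootDist θ T) ∧ 0 < minRootDist θ T ∧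
        n * Real.log θ - C ≤ -Real.log (minRootDist θ T) ∧
        -Real.log (minRootDist θ T) ≤
          n * Real.log θ + (f.natDegree * Real.log (H * (n : ℝ) ^ 2) + Real.log n + 1)) ∧
    (∃ θ : ℝ, 1.443 < θ ∧ θ < 1.444 ∧ θ ^ 5 - θ ^ 4 - θ ^ 3 + θ ^ 2 - 1 = 0 ∧
      ∃ C : ℝ, ∀ᶠ n : ℕ in atTop, ∀ H : ℕ, 1 ≤ H →
        ∀ T : Set ℤ[X], SepaMon n H ⊆ T → T ⊆ Sepa n H →
        (IsLeast (rootDist θ T) (minRootDist θ T) ∧ 0 < minRootDist θ T ∧
          n * Real.log θ - C ≤ -Real.log (minRootDist θ T) ∧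
          -Real.log (minRootDist θ T) ≤
            n * Real.log θ + (5 * Real.log (H * (n : ℝ) ^ 2) + Real.log n + 1)) ∧
        (IsLeast (sepDist T) (minSep T) ∧ 0 < minSep T ∧
          11 / 30 * n ≤ -Real.log (minSep T))) :=
  ⟨fun _ _ hf => pisot_main hf, quintic_main⟩

end Pool.Agent.Results.MP_418077_nt.PisotPairs
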